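import Pool.Agent.Helper89.UB.Stmts

set_option autoImplicit false

open Finset

namespace Pool.Agent.Helper89.UB

theorem rep_sur0 {n k : ℕ} (E : Finset (Finset (Fin n))) (W : Finset (Fin n)) (hk : n < k) :
    sur E W k = 0 := by
  classical
  unfold sur
  rw [Finset.card_eq_zero, Finset.eq_empty_iff_forall_notMem]
  intro c hc
  unfold OP at hc
  rw [Finset.mem_filter] at hc
  obtain ⟨_, h1, h2, _, _⟩ := hc
  choose f hf using h1
  have hinj : Function.Injective f := by
    intro i j hij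
    by_contra hne
    have h3 := h2 i j hne
    exact (Finset.disjoint_left.1 h3 (hf i)) (hij ▸ hf j)
  have h4 := Fintype.card_le_of_injective f hinj
  rw [Fintype.card_fin, Fintype.card_fin] at h4
  omega

theorem rep_alt (k m : ℕ) :
    ∑ i ∈ range (k + 1), (-1 : ℂ) ^ (k - i) * (k.choose i : ℂ) * (i.choose m : ℂ) =
      if m = k then 1 else 0 := by
  by_cases hm : m ≤ k
  · obtain ⟨d, rfl⟩ := Nat.exists_eq_add_of_le hm
    have h0 : ∑ i ∈ range m, (-1 : ℂ) ^ (m + d - i) * ((m + d).choose i : ℂ) * (i.choose m : ℂ) = 0 := by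
      refine Finset.sum_eq_zero fun i hi => ?_
      rw [Nat.choose_eq_zero_of_lt (Finset.mem_range.1 hi)]
      simp
    rw [show m + d + 1 = m + (d + 1) by ring, Finset.sum_range_add, h0, zero_add]
    have h1 : ∀ l ∈ range (d + 1),
        (-1 : ℂ) ^ (m + d - (m + l)) * ((m + d).choose (m + l) : ℂ) * ((m + l).choose m : ℂ) =
        ((m + d).choose m : ℂ) * ((1 : ℂ) ^ l * (-1) ^ (d - l) * (d.choose l : ℂ)) := by
      intro l hl
      have hl' : l ≤ d := Nat.lt_succ_iff.1 (Finset.mem_range.1 hl)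
      have h2 : (m + d).choose (m + l) * (m + l).choose m = (m + d).choose m * d.choose l := by
        have h3 := Nat.choose_mul (n := m + d) (k := m + l) (s := m) (by omega)
        rw [h3]
        congr 2 <;> omega
      have h4 : ((m + d).choose (m + l) : ℂ) * ((m + l).choose m : ℂ) =
          ((m + d).choose m : ℂ) * (d.choose l : ℂ) := by exact_mod_cast h2
      rw [show m + d - (m + l) = d - l by omega, mul_assoc, h4, one_pow]
      ring
    rw [Finset.sum_congr rfl h1, ← Finset.mul_sum, ← add_pow]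
    by_cases hd : d = 0
    · subst hd
      simp
    · rw [if_neg (by omega)]
      simp [hd]
  · rw [if_neg (by omega)]
    refine Finset.sum_eq_zero fun i hi => ?_
    rw [Nat.choose_eq_zero_of_lt (show i < m by have := Finset.mem_range.1 hi; omega)]
    simp

theorem rep_pw {n : ℕ} (E : Finset (Finset (Fin n))) (i : ℕ) :
    PW E univ (i : ℂ) = ∑ m ∈ range (n + 1), (sur E univ m : ℂ) * (i.choose m : ℂ) := by
  unfold PW
  rw [Finset.card_univ, Fintype.card_fin]
  refine Finset.sum_congr rfl fun m _ => ?_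
  have h1 : ∏ l ∈ range m, ((i : ℂ) - l) = ((m.factorial * i.choose m : ℕ) : ℂ) := by
    rw [← descPochhammer_eval_eq_prod_range, descPochhammer_eval_eq_descFactorial,
      Nat.descFactorial_eq_factorial_mul_choose]
  rw [h1]
  push_cast
  have h2 : (m.factorial : ℂ) ≠ 0 := by exact_mod_cast Nat.factorial_ne_zero m
  field_simp

theorem rep_inv {n : ℕ} (E : Finset (Finset (Fin n))) (k : ℕ) :
    (sur E univ k : ℂ) = ∑ i ∈ range (k + 1), (-1 : ℂ) ^ (k - i) * (k.choose i : ℂ) * PW E univ (i : ℂ) := by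
  have h1 : ∀ i ∈ range (k + 1), (-1 : ℂ) ^ (k - i) * (k.choose i : ℂ) * PW E univ (i : ℂ) =
      ∑ m ∈ range (n + 1), (sur E univ m : ℂ) *
        ((-1 : ℂ) ^ (k - i) * (k.choose i : ℂ) * (i.choose m : ℂ)) := by
    intro i _
    rw [rep_pw, Finset.mul_sum]
    exact Finset.sum_congr rfl fun m _ => by ring
  rw [Finset.sum_congr rfl h1, Finset.sum_comm]
  have h2 : ∀ m ∈ range (n + 1), ∑ i ∈ range (k + 1), (sur E univ m : ℂ) *
        ((-1 : ℂ) ^ (k - i) * (k.choose i : ℂ) * (i.choose m : ℂ)) =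
      if m = k then (sur E univ k : ℂ) else 0 := by
    intro m _
    rw [← Finset.mul_sum, rep_alt]
    split_ifs with h
    · rw [h, mul_one]
    · rw [mul_zero]
  rw [Finset.sum_congr rfl h2]
  by_cases hk : k ≤ n
  · rw [Finset.sum_ite_eq' (range (n + 1)) k, if_pos (Finset.mem_range.2 (by omega))]
  · rw [rep_sur0 E univ (by omega)]
    simp

theorem rep_cont (ρ : ℝ) : Continuous (fun t : ℝ => zt ρ t) := by
  unfold zt
  fun_prop

theorem rep_point (n k : ℕ) (a ρ : ℝ) (r : ℕ → ℂ) (t : ℝ) :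
    (Complex.exp (zt ρ t) - 1) ^ k * Complex.exp (-(a : ℂ) * zt ρ t) * qz n r (zt ρ t) *
      Complex.exp (-((n : ℂ) * t * Complex.I)) =
    ∑ i ∈ range (k + 1), ∑ j ∈ range (n + 1),
      ((-1 : ℂ) ^ (k - i) * (k.choose i : ℂ) * (r j * (((n - j).factorial : ℂ) / (n.factorial : ℂ)) *
        (ρ : ℂ) ^ j)) *
      (Complex.exp (((i : ℂ) - a) * zt ρ t) * Complex.exp (-(((n - j : ℕ) : ℂ) * t * Complex.I))) := by
  have e1 : (Complex.exp (zt ρ t) - 1) ^ k = ∑ i ∈ range (k + 1),
      Complex.exp ((i : ℂ) * zt ρ t) * ((-1 : ℂ) ^ (k - i) * (k.choose i : ℂ)) := by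
    rw [sub_eq_add_neg, add_pow]
    refine Finset.sum_congr rfl fun i _ => ?_
    rw [← Complex.exp_nat_mul]
    ring
  rw [e1, qz, Finset.sum_mul, Finset.sum_mul, Finset.sum_mul]
  refine Finset.sum_congr rfl fun i _ => ?_
  rw [Finset.mul_sum, Finset.sum_mul]
  refine Finset.sum_congr rfl fun j hj => ?_
  have hj' : j ≤ n := Nat.lt_succ_iff.1 (Finset.mem_range.1 hj)
  have e2 : Complex.exp (((i : ℂ) - a) * zt ρ t) =
      Complex.exp ((i : ℂ) * zt ρ t) * Complex.exp (-(a : ℂ) * zt ρ t) := by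
    rw [← Complex.exp_add]
    congr 1
    ring
  have e3 : zt ρ t ^ j * Complex.exp (-((n : ℂ) * t * Complex.I)) =
      (ρ : ℂ) ^ j * Complex.exp (-(((n - j : ℕ) : ℂ) * t * Complex.I)) := by
    unfold zt
    rw [mul_pow, ← Complex.exp_nat_mul, mul_assoc, ← Complex.exp_add]
    congr 2
    rw [Nat.cast_sub hj']
    ring
  rw [e2]
  calc Complex.exp ((i : ℂ) * zt ρ t) * ((-1 : ℂ) ^ (k - i) * (k.choose i : ℂ)) *
        Complex.exp (-(a : ℂ) * zt ρ t) *
        (r j * zt ρ t ^ j * (((n - j).factorial : ℂ) / (n.factorial : ℂ))) *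
        Complex.exp (-((n : ℂ) * t * Complex.I))
      = Complex.exp ((i : ℂ) * zt ρ t) * ((-1 : ℂ) ^ (k - i) * (k.choose i : ℂ)) *
        Complex.exp (-(a : ℂ) * zt ρ t) *
        (r j * (((n - j).factorial : ℂ) / (n.factorial : ℂ))) *
        (zt ρ t ^ j * Complex.exp (-((n : ℂ) * t * Complex.I))) := by ring
    _ = _ := by
        rw [e3]
        ring

theorem st_REP (h1 : ST_CI) : ST_REP := by
  intro n E a ρ r _ hρ hr k
  have hρ0 : (ρ : ℂ) ≠ 0 := by exact_mod_cast hρ.ne'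
  have hexp : Complex.exp (ρ : ℂ) - 1 ≠ 0 := by
    intro h
    have h2 : Complex.exp (ρ : ℂ) = ((1 : ℝ) : ℂ) := by
      push_cast
      linear_combination h
    rw [← Complex.ofReal_exp] at h2
    have h3 := Complex.ofReal_injective h2
    have h4 : (1 : ℝ) < Real.exp ρ := Real.one_lt_exp_iff.2 hρ
    linarith
  have hfac : (n.factorial : ℂ) ≠ 0 := by exact_mod_cast Nat.factorial_ne_zero n
  have hpi : (Real.pi : ℂ) ≠ 0 := by exact_mod_cast Real.pi_ne_zero
  -- remove the normalisation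
  have hJ : (Complex.exp (ρ : ℂ) - 1) ^ k * Complex.exp (-(a : ℂ) * ρ) * Jk n k a ρ (qz n r) =
      ∫ t in (-Real.pi)..Real.pi, (Complex.exp (zt ρ t) - 1) ^ k * Complex.exp (-(a : ℂ) * zt ρ t) *
        qz n r (zt ρ t) * Complex.exp (-((n : ℂ) * t * Complex.I)) := by
    unfold Jk
    rw [← intervalIntegral.integral_const_mul]
    refine intervalIntegral.integral_congr fun t _ => ?_
    show (Complex.exp (ρ : ℂ) - 1) ^ k * Complex.exp (-(a : ℂ) * ρ) * wk n k a ρ (qz n r) t = _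
    unfold wk
    have e1 : Complex.exp (-(a : ℂ) * zt ρ t) =
        Complex.exp (-(a : ℂ) * ρ) * Complex.exp (-(a : ℂ) * (zt ρ t - ρ)) := by
      rw [← Complex.exp_add]
      congr 1
      ring
    rw [e1, div_pow]
    have h5 : (Complex.exp (ρ : ℂ) - 1) ^ k ≠ 0 := pow_ne_zero _ hexp
    field_simp
  have hint : ∀ i ∈ range (k + 1), ∀ j ∈ range (n + 1), IntervalIntegrable (fun t : ℝ =>
      ((-1 : ℂ) ^ (k - i) * (k.choose i : ℂ) * (r j * (((n - j).factorial : ℂ) / (n.factorial : ℂ)) *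
        (ρ : ℂ) ^ j)) *
      (Complex.exp (((i : ℂ) - a) * zt ρ t) * Complex.exp (-(((n - j : ℕ) : ℂ) * t * Complex.I))))
      MeasureTheory.volume (-Real.pi) Real.pi := by
    intro i _ j _
    apply Continuous.intervalIntegrable
    have hz := rep_cont ρ
    fun_prop
  have hI : ∫ t in (-Real.pi)..Real.pi, (Complex.exp (zt ρ t) - 1) ^ k *
        Complex.exp (-(a : ℂ) * zt ρ t) * qz n r (zt ρ t) * Complex.exp (-((n : ℂ) * t * Complex.I)) =
      ∑ i ∈ range (k + 1), ∑ j ∈ range (n + 1),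
        ((-1 : ℂ) ^ (k - i) * (k.choose i : ℂ) * (r j * (((n - j).factorial : ℂ) / (n.factorial : ℂ)) *
          (ρ : ℂ) ^ j)) *
        (2 * Real.pi * (((i : ℂ) - a) * ρ) ^ (n - j) / ((n - j).factorial : ℂ)) := by
    rw [intervalIntegral.integral_congr (fun t _ => rep_point n k a ρ r t)]
    rw [intervalIntegral.integral_finsetSum (fun i hi => ?_)]
    · refine Finset.sum_congr rfl fun i hi => ?_
      rw [intervalIntegral.integral_finsetSum (fun j hj => hint i hi j hj)]
      refine Finset.sum_congr rfl fun j hj => ?_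
      rw [intervalIntegral.integral_const_mul, h1 (n - j) ρ ((i : ℂ) - a) hρ]
    · apply Continuous.intervalIntegrable
      have hz := rep_cont ρ
      fun_prop
  have hfin : (n.factorial : ℂ) / (2 * Real.pi) / (ρ : ℂ) ^ n *
      (∑ i ∈ range (k + 1), ∑ j ∈ range (n + 1),
        ((-1 : ℂ) ^ (k - i) * (k.choose i : ℂ) * (r j * (((n - j).factorial : ℂ) / (n.factorial : ℂ)) *
          (ρ : ℂ) ^ j)) *
        (2 * Real.pi * (((i : ℂ) - a) * ρ) ^ (n - j) / ((n - j).factorial : ℂ))) =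
      ∑ i ∈ range (k + 1), (-1 : ℂ) ^ (k - i) * (k.choose i : ℂ) * PW E univ (i : ℂ) := by
    rw [Finset.mul_sum]
    refine Finset.sum_congr rfl fun i _ => ?_
    have e4 : PW E univ (i : ℂ) = ∑ j ∈ range (n + 1), r j * ((i : ℂ) - a) ^ (n - j) := by
      rw [← hr]
      congr 1
      ring
    rw [e4, Finset.mul_sum, Finset.mul_sum]
    refine Finset.sum_congr rfl fun j hj => ?_
    have hj' : j ≤ n := Nat.lt_succ_iff.1 (Finset.mem_range.1 hj)
    have e5 : (ρ : ℂ) ^ n = (ρ : ℂ) ^ j * (ρ : ℂ) ^ (n - j) := by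
      rw [← pow_add]
      congr 1
      omega
    have h6 : ((n - j).factorial : ℂ) ≠ 0 := by exact_mod_cast Nat.factorial_ne_zero (n - j)
    rw [e5, mul_pow]
    field_simp
  rw [rep_inv, ← hfin, ← hI, ← hJ]
  ring

end Pool.Agent.Helper89.UB
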