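import Pool.Agent.Helper89.UB.Stmts

set_option autoImplicit false

open Finset

namespace Pool.Agent.Helper89.UB

theorem she_pow (h : ℂ) (n : ℕ) (ε : ℝ) (h0 : ‖h - 1‖ ≤ ε) (hn : n * ε ≤ 1 / 2) :
    ‖h ^ n - 1‖ ≤ 2 * (n * ε) := by
  have hε : 0 ≤ ε := (norm_nonneg _).trans h0
  have h1 : ‖h‖ ≤ 1 + ε := by
    have h2 : ‖h‖ ≤ ‖h - 1‖ + ‖(1 : ℂ)‖ := by
      have := norm_add_le (h - 1) 1
      rwa [sub_add_cancel] at this
    rw [norm_one] at h2
    linarith
  have hexp : Real.exp (1 / 2) ≤ 2 := by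
    have h3 : Real.exp (1 / 2) ^ 2 = Real.exp 1 := by
      rw [← Real.exp_nat_mul]
      norm_num
    have h4 := Real.exp_one_lt_d9
    have h5 := Real.exp_pos (1 / 2 : ℝ)
    nlinarith
  have h2 : ∀ i ∈ range n, ‖h ^ i‖ ≤ 2 := by
    intro i hi
    have hi' := Finset.mem_range.1 hi
    rw [norm_pow]
    calc ‖h‖ ^ i ≤ (1 + ε) ^ i := pow_le_pow_left₀ (norm_nonneg _) h1 i
      _ ≤ (1 + ε) ^ n := pow_le_pow_right₀ (by linarith) hi'.le
      _ ≤ (Real.exp ε) ^ n := pow_le_pow_left₀ (by linarith) (by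
          have := Real.add_one_le_exp ε
          linarith) n
      _ = Real.exp (n * ε) := by rw [← Real.exp_nat_mul]
      _ ≤ Real.exp (1 / 2) := Real.exp_le_exp.2 hn
      _ ≤ 2 := hexp
  rw [← geom_sum_mul, norm_mul]
  have h3 : ‖∑ i ∈ range n, h ^ i‖ ≤ n * 2 := by
    refine (norm_sum_le _ _).trans ?_
    refine (Finset.sum_le_sum h2).trans ?_
    rw [Finset.sum_const, Finset.card_range, nsmul_eq_mul]
  calc ‖∑ i ∈ range n, h ^ i‖ * ‖h - 1‖ ≤ (n * 2) * ε :=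
        mul_le_mul h3 h0 (norm_nonneg _) (by positivity)
    _ = 2 * (n * ε) := by ring

theorem she_w (w : ℂ) (hw : ‖w‖ ≤ 1 / 2) :
    ‖(1 + w) * Complex.exp (-(w / (1 + w))) - 1‖ ≤ 2 * ‖w‖ ^ 2 := by
  have h1 : 1 / 2 ≤ ‖1 + w‖ := by
    have h2 : ‖(1 : ℂ)‖ ≤ ‖1 + w‖ + ‖w‖ := by
      have := norm_sub_le (1 + w) w
      rwa [add_sub_cancel_right] at this
    rw [norm_one] at h2
    linarith
  have h2 : 1 + w ≠ 0 := by
    intro h
    rw [h, norm_zero] at h1
    norm_num at h1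
  have hpos : 0 < ‖1 + w‖ := by linarith
  have h3 : ‖w / (1 + w)‖ ≤ 1 := by
    rw [norm_div, div_le_one hpos]
    linarith
  have h4 : ‖Complex.exp (-(w / (1 + w))) - 1 - -(w / (1 + w))‖ ≤ ‖w / (1 + w)‖ ^ 2 := by
    have := Complex.norm_exp_sub_one_sub_id_le (x := -(w / (1 + w))) (by rwa [norm_neg])
    rwa [norm_neg] at this
  have h5 : (1 + w) * Complex.exp (-(w / (1 + w))) - 1 =
      (1 + w) * (Complex.exp (-(w / (1 + w))) - 1 - -(w / (1 + w))) := by
    field_simp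
    ring
  rw [h5, norm_mul]
  calc ‖1 + w‖ * ‖Complex.exp (-(w / (1 + w))) - 1 - -(w / (1 + w))‖
      ≤ ‖1 + w‖ * ‖w / (1 + w)‖ ^ 2 := mul_le_mul_of_nonneg_left h4 hpos.le
    _ = ‖w‖ ^ 2 / ‖1 + w‖ := by
        rw [norm_div]
        field_simp
    _ ≤ ‖w‖ ^ 2 / (1 / 2) := div_le_div_of_nonneg_left (by positivity) (by norm_num) h1
    _ = 2 * ‖w‖ ^ 2 := by ring

theorem st_SHE (h1 : ST_PRD) (h2 : ST_HND) : ST_SHE := by
  obtain ⟨n₁, hn₁⟩ := h2
  refine ⟨max n₁ 3, fun n hn E hE hdeg y hy => ?_⟩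
  have hn1 : n₁ ≤ n := (le_max_left _ _).trans hn
  have hn3 : 3 ≤ n := (le_max_right _ _).trans hn
  obtain ⟨hd, hm⟩ := hn₁ n hn1 E hE hdeg
  have hN : (3 : ℝ) ≤ n := by exact_mod_cast hn3
  have hNpos : (0 : ℝ) < n := by linarith
  have hL : 1 < Real.log n := by
    rw [Real.lt_log_iff_exp_lt hNpos]
    have := Real.exp_one_lt_d9
    linarith
  have hLpos : 0 < Real.log n := by linarith
  set L : ℝ := Real.log n with hLdef
  set m : ℝ := (E.card : ℝ) with hmdef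
  have hm0 : 0 ≤ m := Nat.cast_nonneg _
  have hypos : 0 < ‖y‖ := by
    rw [hy]
    positivity
  have hy0 : y ≠ 0 := norm_pos_iff.1 hypos
  set w : ℂ := ((m / n : ℝ) : ℂ) * y with hw
  have hwn : ‖w‖ = m / n * (12 * L / n) := by
    rw [hw, norm_mul, hy, Complex.norm_real, Real.norm_of_nonneg (by positivity)]
  have hw2 : n * ‖w‖ ^ 2 ≤ 144 / 2000000000 := by
    have e1 : n * ‖w‖ ^ 2 = 144 * L ^ 2 / n ^ 3 * m ^ 2 := by
      rw [hwn]
      field_simp
      ring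
    rw [e1]
    calc 144 * L ^ 2 / n ^ 3 * m ^ 2 ≤ 144 * L ^ 2 / n ^ 3 * ((1 / 2000000000) * n ^ 3 / L ^ 2) :=
          mul_le_mul_of_nonneg_left hm (by positivity)
      _ = 144 / 2000000000 := by
          field_simp
  have hw3 : ‖w‖ ≤ 1 / 1000 := by
    have e2 : ‖w‖ ^ 2 ≤ 144 / 2000000000 := by
      have : ‖w‖ ^ 2 ≤ n * ‖w‖ ^ 2 := by
        have h0 := sq_nonneg ‖w‖
        nlinarith
      linarith
    by_contra hcon
    push Not at hcon
    nlinarith
  have h1w : 999 / 1000 ≤ ‖1 + w‖ := by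
    have h3 : ‖(1 : ℂ)‖ ≤ ‖1 + w‖ + ‖w‖ := by
      have := norm_sub_le (1 + w) w
      rwa [add_sub_cancel_right] at this
    rw [norm_one] at h3
    linarith
  have h1w0 : 1 + w ≠ 0 := by
    intro h
    rw [h, norm_zero] at h1w
    norm_num at h1w
  set x : ℂ := 1 / y + ((m / n : ℝ) : ℂ) with hx
  have hxy : x * y = 1 + w := by
    rw [hx, hw]
    field_simp
  have hxe : x = (1 + w) / y := by
    rw [← hxy]
    field_simp
  have hx0 : x ≠ 0 := by
    rw [hxe]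
    exact div_ne_zero h1w0 hy0
  have hxn : 1 / 13 * (n / L) ≤ ‖x‖ := by
    rw [hxe, norm_div, hy]
    have e3 : 999 / 1000 / (12 * L / n) ≤ ‖1 + w‖ / (12 * L / n) :=
      div_le_div_of_nonneg_right h1w (by positivity)
    refine le_trans ?_ e3
    have e4 : 999 / 1000 / (12 * L / n) = 999 / 12000 * (n / L) := by
      field_simp
      norm_num
    rw [e4]
    have : 0 < n / L := by positivity
    nlinarith
  have hQ : 0 < n / L := by positivity
  have hxpos : 0 < ‖x‖ := lt_of_lt_of_le (by positivity) hxn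
  -- the maximal degree
  have hne : Nonempty (Fin n) := ⟨⟨0, by omega⟩⟩
  obtain ⟨v, _, hv⟩ := Finset.exists_mem_eq_sup (univ : Finset (Fin n)) univ_nonempty (deg2 E)
  set Δ : ℕ := univ.sup (deg2 E) with hΔ
  have hΔd : ∀ v, deg2 E v ≤ Δ := fun v => Finset.le_sup (Finset.mem_univ v)
  have hΔ1 : (Δ : ℝ) ≤ (1 / 30000) * (n / L) := by
    rw [hv]
    exact hd v
  have hΔ2 : (Δ : ℝ) * m ≤ (1 / 1000000000) * (n / L) ^ 2 := by
    rw [hv]
    exact hdeg v
  have hxsq : 1 / 169 * (n / L) ^ 2 ≤ ‖x‖ ^ 2 := by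
    have : (1 / 13 * (n / L)) ^ 2 ≤ ‖x‖ ^ 2 := pow_le_pow_left₀ (by positivity) hxn 2
    nlinarith
  have hA := h1 n Δ E x hE hΔd hx0 (by nlinarith) (by
    have : 0 < (n / L) ^ 2 := by positivity
    nlinarith)
  have hA2 : ‖PW E univ x / x ^ n * Complex.exp ((E.card : ℂ) / x) - 1‖ ≤ 1 / 20000 := by
    refine hA.trans ?_
    rw [div_le_iff₀ (by positivity)]
    nlinarith
  -- the elementary factor
  have hP := she_pow ((1 + w) * Complex.exp (-(w / (1 + w)))) n (2 * ‖w‖ ^ 2)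
    (she_w w (by linarith)) (by linarith)
  have hP2 : ‖((1 + w) * Complex.exp (-(w / (1 + w)))) ^ n - 1‖ ≤ 1 / 1000000 := by
    refine hP.trans ?_
    linarith
  have hprod : y ^ n * PW E univ x = ((1 + w) * Complex.exp (-(w / (1 + w)))) ^ n *
      (PW E univ x / x ^ n * Complex.exp ((E.card : ℂ) / x)) := by
    have e5 : (E.card : ℂ) / x = n * (w / (1 + w)) := by
      have e6 : (E.card : ℂ) * y = n * w := by
        rw [hw, hmdef]
        push_cast
        have hnC : (n : ℂ) ≠ 0 := by exact_mod_cast (show n ≠ 0 by omega)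
        have e60 : (n : ℂ) * ((E.card : ℂ) / n * y) = (E.card : ℂ) * y := by
          rw [← mul_assoc, mul_div_cancel₀ _ hnC]
        rw [e60]
      rw [hxe]
      rw [div_div_eq_mul_div, e6]
      ring
    have e7 : (1 + w) ^ n = x ^ n * y ^ n := by rw [← hxy, mul_pow]
    rw [mul_pow, e7, e5, ← Complex.exp_nat_mul]
    have e8 : Complex.exp (n * -(w / (1 + w))) * Complex.exp (n * (w / (1 + w))) = 1 := by
      rw [← Complex.exp_add]
      have : (n : ℂ) * -(w / (1 + w)) + n * (w / (1 + w)) = 0 := by ring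
      rw [this, Complex.exp_zero]
    have e9 : x ^ n ≠ 0 := pow_ne_zero _ hx0
    calc y ^ n * PW E univ x = y ^ n * PW E univ x * 1 := by ring
      _ = y ^ n * PW E univ x * (Complex.exp (n * -(w / (1 + w))) *
          Complex.exp (n * (w / (1 + w)))) := by rw [e8]
      _ = _ := by
          field_simp
  have hgoal : y ^ n * PW E univ x - 1 =
      (((1 + w) * Complex.exp (-(w / (1 + w)))) ^ n - 1) *
        (PW E univ x / x ^ n * Complex.exp ((E.card : ℂ) / x) - 1) +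
      (((1 + w) * Complex.exp (-(w / (1 + w)))) ^ n - 1) +
      (PW E univ x / x ^ n * Complex.exp ((E.card : ℂ) / x) - 1) := by
    rw [hprod]
    ring
  show ‖y ^ n * PW E univ x - 1‖ ≤ 1 / 200
  rw [hgoal]
  refine (norm_add_le _ _).trans ?_
  have k1 := norm_add_le ((((1 + w) * Complex.exp (-(w / (1 + w)))) ^ n - 1) *
        (PW E univ x / x ^ n * Complex.exp ((E.card : ℂ) / x) - 1))
      (((1 + w) * Complex.exp (-(w / (1 + w)))) ^ n - 1)
  rw [norm_mul] at k1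
  have k2 : ‖((1 + w) * Complex.exp (-(w / (1 + w)))) ^ n - 1‖ *
      ‖PW E univ x / x ^ n * Complex.exp ((E.card : ℂ) / x) - 1‖ ≤ 1 / 1000000 * (1 / 20000) :=
    mul_le_mul hP2 hA2 (norm_nonneg _) (by norm_num)
  linarith

end Pool.Agent.Helper89.UB
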